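import Pool.Agent.Q15.SymLatKMain

/-! A variety of lattices axiomatized by identities of arity at most `k` need not be axiomatized by
its symmetric identities of arity at most `k`. -/

namespace Pool.Agent.Results.MP_78b302_al.FourVariables

open Q15Sym Q15SymK

/-- There are a number `k`, a set `E` of lattice identities of arity at most `k` and a lattice `L`
which does not belong to the variety defined by `E`, but satisfies every symmetric identity of
arity at most `k` that holds in this variety. -/
theorem result : ∃ (k : ℕ) (E : Set (Σ n : ℕ, LTerm (Fin n) × LTerm (Fin n))) (L : Type)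
    (_ : Lattice L), (∀ e ∈ E, e.1 ≤ k) ∧ ¬ InVariety E L ∧
      ∀ n ≤ k, ∀ t s : LTerm (Fin n), IsSymmetric.{0} t → IsSymmetric.{0} s →
        (∀ (K : Type) [Lattice K], InVariety E K → Holds K t s) → Holds L t s := by
  refine ⟨4, EE, LL, inferInstance, ?_, not_inVariety, holds_symmetric⟩
  rintro e ⟨t, s, rfl, -⟩
  exact le_rfl

end Pool.Agent.Results.MP_78b302_al.FourVariables
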